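import Pool.Agent.Y514.SX.ZeA

set_option autoImplicit false

/-! Project SX, job ZE: the product of the local densities against the zeta factors. -/

namespace Pool.Agent.Y514.SX

open Finset Filter Topology MeasureTheory Complex
open Pool.Agent.Y969.GP (mB)
open Pool.Agent.Y969.SM

noncomputable section

/-- Chebyshev's inequality on `[1, U]` -/
theorem cheb (U : ℝ) (hU : 1 ≤ U) (f : ℝ → ℝ) (hf0 : ∀ x, 0 ≤ f x)
    (hf : ContinuousOn f (Set.Icc 1 U)) (t A : ℝ) (ht : 0 < t)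
    (hA : ∫ x in (1 : ℝ)..U, f x ≤ A) :
    (volume : Measure ℝ) ({x | t ≤ f x} ∩ Set.Ioc 1 U) ≤ ENNReal.ofReal (A / t) := by
  have hi : Integrable f ((volume : Measure ℝ).restrict (Set.Ioc 1 U)) :=
    (hf.integrableOn_compact isCompact_Icc).mono_set Set.Ioc_subset_Icc_self
  have h := mul_meas_ge_le_integral_of_nonneg (μ := (volume : Measure ℝ).restrict (Set.Ioc 1 U))
    (Eventually.of_forall hf0) hi t
  rw [← intervalIntegral.integral_of_le hU] at h
  have h1 : ((volume : Measure ℝ).restrict (Set.Ioc 1 U)).real {x | t ≤ f x} ≤ A / t := by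
    rw [le_div_iff₀ ht, mul_comm]
    exact h.trans hA
  rw [← Measure.restrict_apply' measurableSet_Ioc]
  rw [← ENNReal.ofReal_toReal (measure_ne_top ((volume : Measure ℝ).restrict (Set.Ioc 1 U)) _)]
  exact ENNReal.ofReal_le_ofReal h1

theorem real_bad (U d M A B y : ℝ) (hU : 1 ≤ U) (hd : 0 < d) (hM : 0 < M)
    (I1 : ∫ x in (1 : ℝ)..U, ‖riemannZeta (1 + I * x) * Py y x - 1‖ ^ 2 ≤ A)
    (I2 : ∫ x in (1 : ℝ)..U, ‖riemannZeta (1 + I * x)‖ ^ 2 ≤ B) :
    ∃ R : Set ℝ, MeasurableSet R ∧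
      volume R ≤ ENNReal.ofReal (2 * (A / d ^ 2 + B / M ^ 2) + 2) ∧
      ∀ x : ℝ, |x| ≤ U → x ∉ R → |Wn y x - 1| ≤ d ∧ ‖riemannZeta (1 + I * x)‖ ≤ M := by
  have hzc : ContinuousOn (fun x : ℝ => riemannZeta (1 + I * x)) (Set.Icc 1 U) := fun x hx =>
    (zeta_cont (by linarith [hx.1] : x ≠ 0)).continuousWithinAt
  have c1 : ContinuousOn (fun x : ℝ => ‖riemannZeta (1 + I * x) * Py y x - 1‖ ^ 2)
      (Set.Icc 1 U) := (((hzc.mul (Py_cont y).continuousOn).sub continuousOn_const).norm).pow 2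
  have c2 : ContinuousOn (fun x : ℝ => ‖riemannZeta (1 + I * x)‖ ^ 2) (Set.Icc 1 U) :=
    hzc.norm.pow 2
  have m1 := cheb U hU _ (fun x => sq_nonneg _) c1 (d ^ 2) A (by positivity) I1
  have m2 := cheb U hU _ (fun x => sq_nonneg _) c2 (M ^ 2) B (by positivity) I2
  have hA : 0 ≤ A / d ^ 2 := by
    refine div_nonneg (le_trans ?_ I1) (by positivity)
    exact intervalIntegral.integral_nonneg hU fun x _ => sq_nonneg _
  have hB : 0 ≤ B / M ^ 2 := by
    refine div_nonneg (le_trans ?_ I2) (by positivity)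
    exact intervalIntegral.integral_nonneg hU fun x _ => sq_nonneg _
  obtain ⟨T, hT1, hT2, hT3⟩ := exists_measurable_superset (volume : Measure ℝ)
    (({x | d ^ 2 ≤ ‖riemannZeta (1 + I * x) * Py y x - 1‖ ^ 2} ∩ Set.Ioc 1 U) ∪
      ({x | M ^ 2 ≤ ‖riemannZeta (1 + I * x)‖ ^ 2} ∩ Set.Ioc 1 U))
  have hT4 : volume T ≤ ENNReal.ofReal (A / d ^ 2 + B / M ^ 2) := by
    rw [hT3, ENNReal.ofReal_add hA hB]
    exact (measure_union_le _ _).trans (add_le_add m1 m2)
  refine ⟨T ∪ (fun x => -x) ⁻¹' T ∪ Set.Icc (-1) 1, ?_, ?_, ?_⟩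
  · exact (hT2.union (measurable_neg hT2)).union measurableSet_Icc
  · have h1 : volume ((fun x : ℝ => -x) ⁻¹' T) = volume T := by
      exact Measure.measure_preimage_neg volume T
    have h2 : volume (Set.Icc (-1 : ℝ) 1) = ENNReal.ofReal 2 := by
      rw [Real.volume_Icc]
      norm_num
    calc _ ≤ volume (T ∪ (fun x => -x) ⁻¹' T) + volume (Set.Icc (-1 : ℝ) 1) :=
          measure_union_le _ _
      _ ≤ (volume T + volume ((fun x : ℝ => -x) ⁻¹' T)) + volume (Set.Icc (-1 : ℝ) 1) :=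
          add_le_add (measure_union_le _ _) le_rfl
      _ ≤ (ENNReal.ofReal (A / d ^ 2 + B / M ^ 2) + ENNReal.ofReal (A / d ^ 2 + B / M ^ 2)) +
          ENNReal.ofReal 2 := by
          rw [h1, h2]
          exact add_le_add (add_le_add hT4 hT4) le_rfl
      _ = ENNReal.ofReal (2 * (A / d ^ 2 + B / M ^ 2) + 2) := by
          rw [← ENNReal.ofReal_add (by positivity) (by positivity),
            ← ENNReal.ofReal_add (by positivity) (by norm_num)]
          congr 1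
          ring
  · intro x hx hxR
    have hx1 : 1 < |x| := by
      by_contra h
      push Not at h
      exact hxR (Or.inr (abs_le.1 h))
    have hxT : |x| ∉ T := by
      intro h
      rcases abs_choice x with h2 | h2
      · rw [h2] at h
        exact hxR (Or.inl (Or.inl h))
      · rw [h2] at h
        exact hxR (Or.inl (Or.inr h))
    have hW : Wn y x = Wn y |x| := by
      rcases abs_choice x with h2 | h2
      · rw [h2]
      · rw [h2, Wn_even]
    have hZ : ‖riemannZeta (1 + I * x)‖ = ‖riemannZeta (1 + I * (|x| : ℝ))‖ := by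
      rcases abs_choice x with h2 | h2
      · rw [h2]
      · rw [h2, zeta_even]
    have hI : |x| ∈ Set.Ioc 1 U := ⟨hx1, hx⟩
    constructor
    · have h3 : ¬ d ^ 2 ≤ ‖riemannZeta (1 + I * (|x| : ℝ)) * Py y |x| - 1‖ ^ 2 := fun h =>
        hxT (hT1 (Or.inl ⟨h, hI⟩))
      push Not at h3
      have h4 := lt_of_pow_lt_pow_left₀ 2 hd.le h3
      rw [hW]
      unfold Wn
      rw [← norm_mul]
      have h5 := abs_norm_sub_norm_le (riemannZeta (1 + I * (|x| : ℝ)) * Py y |x|) 1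
      rw [norm_one] at h5
      exact h5.trans h4.le
    · have h3 : ¬ M ^ 2 ≤ ‖riemannZeta (1 + I * (|x| : ℝ))‖ ^ 2 := fun h =>
        hxT (hT1 (Or.inr ⟨h, hI⟩))
      push Not at h3
      have h4 := lt_of_pow_lt_pow_left₀ 2 hM.le h3
      rw [hZ]
      exact h4.le

/-- the bad set of the box -/
def Bd {n : ℕ} (R : Set ℝ) : Set (Fin n → ℝ) :=
  {c | (∃ j, c j ∈ R) ∨ ∃ i j, i ≠ j ∧ c i - c j ∈ R}

theorem box_bad (n : ℕ) (U : ℝ) (R : Set ℝ) (hR : MeasurableSet R) :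
    (mB n 0 U) (Bd R) ≤ (n + n * n : ℕ) * (volume R * ENNReal.ofReal U ^ (n - 1)) := by
  rcases n with _ | m
  · have : (Bd R : Set (Fin 0 → ℝ)) = ∅ := by
      ext c
      simp [Bd]
    rw [this]
    simp
  · have h1 : (Bd R : Set (Fin (m + 1) → ℝ)) ⊆
        (⋃ j : Fin (m + 1), {c | c j ∈ R}) ∪
          ⋃ q : Fin (m + 1) × Fin (m + 1), {c | q.1 ≠ q.2 ∧ c q.1 - c q.2 ∈ R} := by
      rintro c (⟨j, hj⟩ | ⟨i, j, hij, h⟩)
      · exact Or.inl (Set.mem_iUnion.2 ⟨j, hj⟩)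
      · exact Or.inr (Set.mem_iUnion.2 ⟨(i, j), hij, h⟩)
    set V : ENNReal := volume R * ENNReal.ofReal U ^ m with hV
    have h2 : ∀ j : Fin (m + 1), (mB (m + 1) 0 U) {c | c j ∈ R} ≤ V := by
      intro j
      have := slice (U := U) R hR j (fun _ => 0) measurable_const
      simpa only [sub_zero] using this
    have h3 : ∀ q : Fin (m + 1) × Fin (m + 1),
        (mB (m + 1) 0 U) {c | q.1 ≠ q.2 ∧ c q.1 - c q.2 ∈ R} ≤ V := by
      rintro ⟨i, j⟩
      by_cases hij : i = j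
      · have : {c : Fin (m + 1) → ℝ | (i, j).1 ≠ (i, j).2 ∧ c (i, j).1 - c (i, j).2 ∈ R} = ∅ := by
          ext c
          simp [hij]
        rw [this, measure_empty]
        exact zero_le
      · obtain ⟨j', hj'⟩ := Fin.exists_succAbove_eq (Ne.symm hij)
        have h4 := slice (U := U) R hR i (fun r : Fin m → ℝ => r j') (measurable_pi_apply j')
        refine (measure_mono ?_).trans h4
        rintro c ⟨_, hc⟩
        show c i - c (i.succAbove j') ∈ R
        rw [hj']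
        exact hc
    calc (mB (m + 1) 0 U) (Bd R) ≤ _ := measure_mono h1
      _ ≤ (mB (m + 1) 0 U) (⋃ j : Fin (m + 1), {c | c j ∈ R}) +
          (mB (m + 1) 0 U) (⋃ q : Fin (m + 1) × Fin (m + 1),
            {c | q.1 ≠ q.2 ∧ c q.1 - c q.2 ∈ R}) := measure_union_le _ _
      _ ≤ (∑ j : Fin (m + 1), V) + ∑ q : Fin (m + 1) × Fin (m + 1), V :=
          add_le_add ((measure_iUnion_fintype_le _ _).trans (Finset.sum_le_sum fun j _ => h2 j))
            ((measure_iUnion_fintype_le _ _).trans (Finset.sum_le_sum fun q _ => h3 q))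
      _ = ((m + 1) + (m + 1) * (m + 1) : ℕ) * V := by
          rw [Finset.sum_const, Finset.sum_const, Finset.card_univ, Finset.card_univ,
            Fintype.card_prod, Fintype.card_fin, nsmul_eq_mul, nsmul_eq_mul]
          push_cast
          ring
      _ = _ := rfl

theorem inv_est (N : ℕ) (d w : ℝ) (hd0 : 0 < d) (hd1 : d ≤ 1 / 2) (hN : N * d ≤ 1 / 2)
    (h1 : (1 - d) ^ N ≤ w) (h2 : w ≤ (1 + d) ^ N) : 0 < w ∧ |1 / w - 1| ≤ 2 * N * d := by
  have hw : 0 < w := lt_of_lt_of_le (pow_pos (by linarith) N) h1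
  have hb := one_add_mul_le_pow (a := -d) (by linarith) N
  have e : (1 + -d) ^ N = (1 - d) ^ N := by ring
  rw [e] at hb
  have hNd : 0 ≤ N * d := by positivity
  refine ⟨hw, ?_⟩
  rw [abs_le]
  constructor
  · have h3 : (1 - N * d) * w ≤ 1 := by
      calc (1 - N * d) * w ≤ (1 - d) ^ N * (1 + d) ^ N :=
            mul_le_mul (by linarith) h2 hw.le (pow_nonneg (by linarith) N)
        _ = (1 - d ^ 2) ^ N := by rw [← mul_pow]; congr 1; ring
        _ ≤ 1 := pow_le_one₀ (by nlinarith) (by nlinarith)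
    have h4 : 1 - N * d ≤ 1 / w := by rwa [le_div_iff₀ hw]
    linarith
  · have h3 : 1 / w ≤ 1 + 2 * N * d := by
      rw [div_le_iff₀ hw]
      have h4 : 1 - N * d ≤ w := by linarith
      have h5 : (1 + 2 * N * d) * (1 - N * d) ≤ (1 + 2 * N * d) * w :=
        mul_le_mul_of_nonneg_left h4 (by positivity)
      nlinarith
    linarith

/-- the product of the Euler factors -/
theorem ep_prod {n : ℕ} (y : ℝ) (c : Fin n → ℝ) :
    ∏ p ∈ (Finset.range (⌊y⌋₊ + 1)).filter Nat.Prime, ep c p =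
      (∏ j, ‖Py y (c j)‖ ^ 4) * ∏ i, ∏ j ∈ Finset.Ioi i, ‖Py y (c i - c j)‖ ^ 2 := by
  unfold ep Py
  rw [Finset.prod_mul_distrib, Finset.prod_comm]
  congr 1
  · refine Finset.prod_congr rfl fun j _ => ?_
    rw [norm_prod, Finset.prod_pow]
  · rw [Finset.prod_comm]
    refine Finset.prod_congr rfl fun i _ => ?_
    rw [Finset.prod_comm]
    refine Finset.prod_congr rfl fun j _ => ?_
    rw [norm_prod, Finset.prod_pow]
    push_cast
    rfl

theorem zp_ep {n : ℕ} (y : ℝ) (c : Fin n → ℝ) :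
    zp c * ∏ p ∈ (Finset.range (⌊y⌋₊ + 1)).filter Nat.Prime, ep c p =
      (∏ j, Wn y (c j) ^ 4) * ∏ i, ∏ j ∈ Finset.Ioi i, Wn y (c i - c j) ^ 2 := by
  rw [ep_prod]
  unfold zp Wn
  rw [mul_mul_mul_comm, ← Finset.prod_mul_distrib, ← Finset.prod_mul_distrib]
  congr 1
  · exact Finset.prod_congr rfl fun j _ => by rw [mul_pow]
  · refine Finset.prod_congr rfl fun i _ => ?_
    rw [← Finset.prod_mul_distrib]
    refine Finset.prod_congr rfl fun j _ => ?_
    rw [mul_pow]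
    push_cast
    rfl

theorem zp_bd {n : ℕ} (c : Fin n → ℝ) (M : ℝ) (hM : 1 ≤ M)
    (h1 : ∀ j, ‖riemannZeta (1 + I * (c j : ℝ))‖ ≤ M)
    (h2 : ∀ i j, i ≠ j → ‖riemannZeta (1 + I * ((c i - c j : ℝ) : ℂ))‖ ≤ M) :
    0 ≤ zp c ∧ zp c ≤ M ^ (4 * n + 2 * (n * n)) := by
  constructor
  · unfold zp
    positivity
  · have h := (pb2 (fun x : ℝ => ‖riemannZeta (1 + I * (x : ℂ))‖) c 0 M le_rfl zero_le_one hM
      (fun j => ⟨norm_nonneg _, h1 j⟩) (fun i j hij => ⟨norm_nonneg _, h2 i j hij⟩)).2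
    refine le_trans (le_of_eq ?_) h
    unfold zp
    congr 1
    refine Finset.prod_congr rfl fun i _ => Finset.prod_congr rfl fun j _ => ?_
    push_cast
    rfl

theorem det_est {n : ℕ} (c : Fin n → ℝ) (y C d M : ℝ) (hM : 1 ≤ M)
    (hd0 : 0 < d) (hd1 : d ≤ 1 / 2) (hN : ((4 * n + 2 * (n * n) : ℕ) : ℝ) * d ≤ 1 / 2)
    (hG0 : 0 ≤ ∏ p ∈ (Finset.range (⌊y⌋₊ + 1)).filter Nat.Prime, loc c p * ep c p)
    (hG1 : ∏ p ∈ (Finset.range (⌊y⌋₊ + 1)).filter Nat.Prime, loc c p * ep c p ≤ C)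
    (hG2 : |(∏ p ∈ (Finset.range (⌊y⌋₊ + 1)).filter Nat.Prime, loc c p * ep c p) - AA c| ≤ C / y)
    (h1 : ∀ j, |Wn y (c j) - 1| ≤ d ∧ ‖riemannZeta (1 + I * (c j : ℝ))‖ ≤ M)
    (h2 : ∀ i j, i ≠ j → |Wn y (c i - c j) - 1| ≤ d ∧
      ‖riemannZeta (1 + I * ((c i - c j : ℝ) : ℂ))‖ ≤ M) :
    |SS y c - zp c * AA c| ≤ M ^ (4 * n + 2 * (n * n)) *
      (C * (2 * ((4 * n + 2 * (n * n) : ℕ) : ℝ) * d) + C / y) := by
  set N : ℕ := 4 * n + 2 * (n * n) with hNdef
  set Ep := ∏ p ∈ (Finset.range (⌊y⌋₊ + 1)).filter Nat.Prime, ep c p with hEp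
  set G := ∏ p ∈ (Finset.range (⌊y⌋₊ + 1)).filter Nat.Prime, loc c p * ep c p with hG
  have hGE : G = SS y c * Ep := by
    rw [hG, Finset.prod_mul_distrib]
    rfl
  have hab : ∀ x : ℝ, |x - 1| ≤ d → 1 - d ≤ x ∧ x ≤ 1 + d := by
    intro x hx
    obtain ⟨a, b⟩ := abs_le.1 hx
    exact ⟨by linarith, by linarith⟩
  have hw := pb2 (Wn y) c (1 - d) (1 + d) (by linarith) (by linarith) (by linarith)
    (fun j => hab _ (h1 j).1) (fun i j hij => hab _ (h2 i j hij).1)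
  rw [← zp_ep, ← hEp] at hw
  obtain ⟨hw0, hw1⟩ := inv_est N d (zp c * Ep) hd0 hd1 hN hw.1 hw.2
  obtain ⟨hz0, hz1⟩ := zp_bd c M hM (fun j => (h1 j).2) (fun i j hij => (h2 i j hij).2)
  have hE0 : Ep ≠ 0 := fun h => by rw [h, mul_zero] at hw0; exact lt_irrefl _ hw0
  have hzne : zp c ≠ 0 := fun h => by rw [h, zero_mul] at hw0; exact lt_irrefl _ hw0
  have e : SS y c - zp c * AA c =
      zp c * (G * (1 / (zp c * Ep) - 1) + (G - AA c)) := by
    rw [hGE]
    field_simp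
    ring
  rw [e, abs_mul, abs_of_nonneg hz0]
  refine mul_le_mul hz1 ?_ (abs_nonneg _) (by positivity)
  refine (abs_add_le _ _).trans (add_le_add ?_ hG2)
  rw [abs_mul, abs_of_nonneg hG0]
  exact mul_le_mul hG1 hw1 (abs_nonneg _) (hG0.trans hG1)

theorem box_compl (n : ℕ) (U : ℝ) :
    (mB n 0 U) {c | ¬ ∀ j, 0 ≤ c j ∧ c j ≤ U} = 0 := by
  rw [mB_eq, Measure.restrict_apply' measurableSet_Icc]
  have : {c : Fin n → ℝ | ¬ ∀ j, 0 ≤ c j ∧ c j ≤ U} ∩
      Set.Icc (fun _ => (0 : ℝ)) (fun _ => U) = ∅ := by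
    ext c
    simp only [Set.mem_inter_iff, Set.mem_empty_iff_false, iff_false]
    rintro ⟨h1, h2⟩
    exact h1 fun j => ⟨h2.1 j, h2.2 j⟩
  rw [this, measure_empty]

theorem t_ZE (h1 : S_AA) (h2 : S_ZM) : S_ZE := by
  intro n ε hε
  obtain ⟨C, hC, hAA⟩ := h1 n
  obtain ⟨hZ1, C₁, hC₁, hZ2⟩ := h2
  set N : ℕ := 4 * n + 2 * (n * n) with hN
  set K : ℝ := ((n + n * n : ℕ) : ℝ) with hK
  have hK0 : 0 ≤ K := Nat.cast_nonneg _
  have hN0 : (0 : ℝ) ≤ N := Nat.cast_nonneg _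
  set M : ℝ := 1 + 6 * K * C₁ / ε with hM
  have hM1 : 1 ≤ M := by
    have : 0 ≤ 6 * K * C₁ / ε := by positivity
    linarith
  have hM0 : 0 < M := by linarith
  have hMN : 0 < M ^ N := pow_pos hM0 N
  set d : ℝ := min (1 / (2 * (N + 1))) (ε / (3 * (M ^ N * C * (2 * N) + 1))) with hd
  have hd0 : 0 < d := lt_min (by positivity) (by positivity)
  have hd1 : d ≤ 1 / (2 * (N + 1)) := min_le_left _ _
  have hd2 : d ≤ ε / (3 * (M ^ N * C * (2 * N) + 1)) := min_le_right _ _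
  have hdh : d ≤ 1 / 2 := by
    refine hd1.trans ?_
    apply one_div_le_one_div_of_le (by norm_num)
    linarith
  have hNd : (N : ℝ) * d ≤ 1 / 2 := by
    rw [le_div_iff₀ (by positivity)] at hd1
    nlinarith
  have hCd : M ^ N * (C * (2 * N * d)) ≤ ε / 3 := by
    rw [le_div_iff₀ (by positivity)] at hd2
    nlinarith
  set ε₁ : ℝ := ε * d ^ 2 / (6 * (K + 1)) with hε₁
  have hε₁0 : 0 < ε₁ := by positivity
  filter_upwards [hZ1 ε₁ hε₁0, hZ2, eventually_ge_atTop (1 : ℝ), eventually_ge_atTop (6 * K / ε),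
    Real.tendsto_log_atTop.eventually_ge_atTop 1,
    Real.tendsto_log_atTop.eventually_gt_atTop (3 * (M ^ N * C) / ε)] with U hI1 hI2 hU1 hU2 hl1 hl2
  obtain ⟨R, hR1, hR2, hR3⟩ := real_bad U d M (ε₁ * U) (C₁ * U) (Real.log U) hU1 hd0 hM0 hI1 hI2
  have hU0 : 0 < U := by linarith
  have hl0 : 0 < Real.log U := by linarith
  -- the good set
  have hsub : {c : Fin n → ℝ | ε ≤ |SS (Real.log U) c - zp c * AA c|} ⊆
      Bd R ∪ {c | ¬ ∀ j, 0 ≤ c j ∧ c j ≤ U} := by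
    intro c hc
    by_contra hcon
    rw [Set.mem_union, not_or] at hcon
    obtain ⟨hc1, hc2⟩ := hcon
    have hc2' : ∀ j, 0 ≤ c j ∧ c j ≤ U := not_not.1 hc2
    have hc3 : ∀ j, c j ∉ R := fun j h => hc1 (Or.inl ⟨j, h⟩)
    have hc4 : ∀ i j, i ≠ j → c i - c j ∉ R := fun i j hij h => hc1 (Or.inr ⟨i, j, hij, h⟩)
    have hA := hAA c
    have key := det_est c (Real.log U) C d M hM1 hd0 hdh hNd (hA.2.2.1 _ hl1).1
      (hA.2.2.1 _ hl1).2 (hA.2.1 _ hl1)
      (fun j => hR3 _ (by rw [abs_of_nonneg (hc2' j).1]; exact (hc2' j).2) (hc3 j))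
      (fun i j hij => hR3 _ (by
        rw [abs_le]
        constructor
        · linarith [(hc2' i).1, (hc2' j).2]
        · linarith [(hc2' i).2, (hc2' j).1]) (hc4 i j hij))
    have h3 : M ^ N * (C / Real.log U) < ε / 3 := by
      rw [mul_div_assoc', div_lt_iff₀ hl0]
      rw [div_lt_iff₀ hε] at hl2
      linarith
    have h4 : M ^ N * (C * (2 * (N : ℝ) * d) + C / Real.log U) < ε := by
      rw [mul_add]
      linarith
    have hc5 : ε ≤ |SS (Real.log U) c - zp c * AA c| := hc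
    linarith
  set X : ℝ := 2 * (ε₁ * U / d ^ 2 + C₁ * U / M ^ 2) + 2 with hX
  have hX0 : 0 ≤ X := by positivity
  have h5 : (mB n 0 U) {c : Fin n → ℝ | ε ≤ |SS (Real.log U) c - zp c * AA c|} ≤
      ENNReal.ofReal (K * (X * U ^ (n - 1))) := by
    calc _ ≤ (mB n 0 U) (Bd R) + (mB n 0 U) {c | ¬ ∀ j, 0 ≤ c j ∧ c j ≤ U} :=
          (measure_mono hsub).trans (measure_union_le _ _)
      _ = (mB n 0 U) (Bd R) := by rw [box_compl, add_zero]
      _ ≤ (n + n * n : ℕ) * (volume R * ENNReal.ofReal U ^ (n - 1)) := box_bad n U R hR1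
      _ ≤ (n + n * n : ℕ) * (ENNReal.ofReal X * ENNReal.ofReal U ^ (n - 1)) := by
          gcongr
      _ = ENNReal.ofReal (K * (X * U ^ (n - 1))) := by
          rw [ENNReal.ofReal_mul hK0, ENNReal.ofReal_mul hX0, ENNReal.ofReal_pow hU0.le, hK,
            ENNReal.ofReal_natCast]
  have h6 : (mB n 0 U).real {c : Fin n → ℝ | ε ≤ |SS (Real.log U) c - zp c * AA c|} ≤
      K * (X * U ^ (n - 1)) := ENNReal.toReal_le_of_le_ofReal (by positivity) h5
  refine h6.trans ?_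
  -- the numbers
  have h7 : K * X ≤ ε * U := by
    have a1 : K * (2 * (ε₁ * U / d ^ 2)) ≤ ε / 3 * U := by
      have : K * (2 * (ε₁ * U / d ^ 2)) = (K / (K + 1)) * (ε / 3) * U := by
        rw [hε₁]
        field_simp
        ring
      rw [this]
      have h8 : K / (K + 1) ≤ 1 := by rw [div_le_one (by positivity)]; linarith
      have h9 : 0 ≤ ε / 3 * U := by positivity
      nlinarith
    have a2 : K * (2 * (C₁ * U / M ^ 2)) ≤ ε / 3 * U := by
      have h8 : 6 * K * C₁ ≤ ε * M ^ 2 := by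
        have h9 : 6 * K * C₁ / ε ≤ M := by linarith
        rw [div_le_iff₀ hε] at h9
        have h10 : M ≤ M ^ 2 := by nlinarith
        nlinarith
      have : K * (2 * (C₁ * U / M ^ 2)) = (6 * K * C₁) * U / (3 * M ^ 2) := by
        field_simp
        ring
      rw [this, div_le_iff₀ (by positivity)]
      nlinarith
    have a3 : K * 2 ≤ ε / 3 * U := by
      rw [div_le_iff₀ hε] at hU2
      linarith
    have : K * X = K * (2 * (ε₁ * U / d ^ 2)) + K * (2 * (C₁ * U / M ^ 2)) + K * 2 := by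
      rw [hX]; ring
    rw [this]
    linarith
  rcases Nat.eq_zero_or_pos n with h0 | h0
  · subst h0
    have : K = 0 := by rw [hK]; simp
    rw [this, zero_mul]
    positivity
  · have e : U ^ n = U * U ^ (n - 1) := by
      rw [← pow_succ']
      congr 1
      omega
    rw [e]
    calc K * (X * U ^ (n - 1)) = (K * X) * U ^ (n - 1) := by ring
      _ ≤ (ε * U) * U ^ (n - 1) := mul_le_mul_of_nonneg_right h7 (by positivity)
      _ = ε * (U * U ^ (n - 1)) := by ring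

end

end Pool.Agent.Y514.SX
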