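import Pool.Agent.Y969.SM.Stm3
import Pool.Agent.Y969.SM.Bas

set_option autoImplicit false

/-! Project SX, job ZE: auxiliary facts. -/

namespace Pool.Agent.Y514.SX

open Finset Filter Topology MeasureTheory Complex
open Pool.Agent.Y969.GP (mB)
open Pool.Agent.Y969.SM

noncomputable section

open ComplexConjugate in
theorem zeta_even (x : ℝ) : ‖riemannZeta (1 + I * (-x : ℝ))‖ = ‖riemannZeta (1 + I * x)‖ := by
  have e : (1 + I * ((-x : ℝ) : ℂ) : ℂ) = conj (1 + I * (x : ℂ)) := by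
    simp
  rw [e, riemannZeta_conj, RCLike.norm_conj]

open ComplexConjugate in
theorem fac_even (p : ℕ) (x : ℝ) : ‖1 - (p : ℂ) ^ (-(1 + I * (-x : ℝ)))‖ =
    ‖1 - (p : ℂ) ^ (-(1 + I * (x : ℂ)))‖ := by
  have e : (-(1 + I * ((-x : ℝ) : ℂ)) : ℂ) = conj (-(1 + I * (x : ℂ))) := by
    simp
  have harg : (p : ℂ).arg ≠ Real.pi := by
    rw [Complex.natCast_arg]
    exact Real.pi_pos.ne
  rw [e, Complex.cpow_conj _ _ harg, Complex.conj_natCast]
  have e2 : (1 : ℂ) - conj ((p : ℂ) ^ (-(1 + I * (x : ℂ)))) =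
      conj (1 - (p : ℂ) ^ (-(1 + I * (x : ℂ)))) := by
    simp
  rw [e2, RCLike.norm_conj]

theorem Py_even (y x : ℝ) : ‖Py y (-x)‖ = ‖Py y x‖ := by
  unfold Py
  rw [norm_prod, norm_prod]
  exact Finset.prod_congr rfl fun p _ => fac_even p x

/-- `‖ζ(1+ix) Py y x‖` -/
def Wn (y x : ℝ) : ℝ := ‖riemannZeta (1 + I * x)‖ * ‖Py y x‖

theorem Wn_even (y x : ℝ) : Wn y (-x) = Wn y x := by
  unfold Wn
  rw [zeta_even, Py_even]

theorem zeta_cont {x : ℝ} (hx : x ≠ 0) : ContinuousAt (fun x : ℝ => riemannZeta (1 + I * x)) x := by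
  have h1 : (1 + I * x : ℂ) ≠ 1 := by
    intro h
    have h2 : I * (x : ℂ) = 0 := by
      have := sub_eq_zero.2 h
      simpa using this
    rcases mul_eq_zero.1 h2 with h3 | h3
    · exact I_ne_zero h3
    · exact hx (by exact_mod_cast h3)
  exact ContinuousAt.comp (f := fun u : ℝ => (1 + I * u : ℂ))
    (differentiableAt_riemannZeta h1).continuousAt (by fun_prop)

theorem Py_cont (y : ℝ) : Continuous (Py y) := by
  unfold Py
  refine continuous_finsetProd _ fun p hp => continuous_const.sub ?_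
  rw [Finset.mem_filter] at hp
  refine Continuous.const_cpow (by fun_prop) (Or.inl ?_)
  exact_mod_cast hp.2.ne_zero

/-- a slice estimate -/
theorem slice {m : ℕ} {U : ℝ} (R : Set ℝ) (hR : MeasurableSet R)
    (i : Fin (m + 1)) (s : (Fin m → ℝ) → ℝ) (hs : Measurable s) :
    (mB (m + 1) 0 U) {c | c i - s (fun j => c (i.succAbove j)) ∈ R} ≤
      volume R * ENNReal.ofReal U ^ m := by
  have h := measurePreserving_piFinSuccAbove
    (fun _ : Fin (m + 1) => (volume : Measure ℝ).restrict (Set.Icc 0 U)) i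
  set B : Set (ℝ × (Fin m → ℝ)) := {q | q.1 - s q.2 ∈ R} with hB
  have hBm : MeasurableSet B := by
    have h1 : Measurable (fun q : ℝ × (Fin m → ℝ) => q.1 - s q.2) :=
      measurable_fst.sub (hs.comp measurable_snd)
    exact h1 hR
  have e : {c : Fin (m + 1) → ℝ | c i - s (fun j => c (i.succAbove j)) ∈ R} =
      (MeasurableEquiv.piFinSuccAbove (fun _ => ℝ) i) ⁻¹' B := rfl
  have h2 : (mB (m + 1) 0 U) {c | c i - s (fun j => c (i.succAbove j)) ∈ R} =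
      ((volume : Measure ℝ).restrict (Set.Icc 0 U)).prod (Measure.pi
        fun _ : Fin m => (volume : Measure ℝ).restrict (Set.Icc 0 U)) B := by
    rw [e]
    exact h.measure_preimage hBm.nullMeasurableSet
  rw [h2, Measure.prod_apply_symm hBm]
  have h3 : ∀ y : Fin m → ℝ, ((volume : Measure ℝ).restrict (Set.Icc 0 U))
      ((fun x => (x, y)) ⁻¹' B) ≤ volume R := by
    intro y
    refine (Measure.restrict_apply_le _ _).trans ?_
    have e2 : (fun x : ℝ => (x, y)) ⁻¹' B = (fun x => x + (-s y)) ⁻¹' R := by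
      ext x
      simp only [hB, Set.mem_preimage, Set.mem_ofPred_eq, sub_eq_add_neg]
    rw [e2, measure_preimage_add_right]
  refine (lintegral_mono h3).trans ?_
  rw [lintegral_const, Measure.pi_univ]
  simp only [Measure.restrict_apply_univ, Real.volume_Icc, sub_zero, Finset.prod_const,
    Finset.card_univ, Fintype.card_fin]
  exact le_rfl

/-- bounds for products -/
theorem pb {ι : Type} (s : Finset ι) (f : ι → ℝ) (L H : ℝ) (hL0 : 0 ≤ L) (hL1 : L ≤ 1)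
    (hH : 1 ≤ H) (K : ℕ) (hK : s.card ≤ K) (h : ∀ i ∈ s, L ≤ f i ∧ f i ≤ H) :
    L ^ K ≤ ∏ i ∈ s, f i ∧ ∏ i ∈ s, f i ≤ H ^ K := by
  constructor
  · calc L ^ K ≤ L ^ s.card := pow_le_pow_of_le_one hL0 hL1 hK
      _ = ∏ i ∈ s, L := by rw [Finset.prod_const]
      _ ≤ ∏ i ∈ s, f i := Finset.prod_le_prod (fun _ _ => hL0) fun i hi => (h i hi).1
  · calc ∏ i ∈ s, f i ≤ ∏ i ∈ s, H :=
        Finset.prod_le_prod (fun i hi => hL0.trans (h i hi).1) fun i hi => (h i hi).2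
      _ = H ^ s.card := by rw [Finset.prod_const]
      _ ≤ H ^ K := pow_le_pow_right₀ hH hK

/-- bounds for the double products -/
theorem pb2 {n : ℕ} (f : ℝ → ℝ) (c : Fin n → ℝ) (L H : ℝ) (hL0 : 0 ≤ L) (hL1 : L ≤ 1)
    (hH : 1 ≤ H) (h1 : ∀ j, L ≤ f (c j) ∧ f (c j) ≤ H)
    (h2 : ∀ i j, i ≠ j → L ≤ f (c i - c j) ∧ f (c i - c j) ≤ H) :
    L ^ (4 * n + 2 * (n * n)) ≤ (∏ j, f (c j) ^ 4) * ∏ i, ∏ j ∈ Finset.Ioi i, f (c i - c j) ^ 2 ∧
      (∏ j, f (c j) ^ 4) * ∏ i, ∏ j ∈ Finset.Ioi i, f (c i - c j) ^ 2 ≤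
        H ^ (4 * n + 2 * (n * n)) := by
  have hH0 : 0 ≤ H := by linarith
  have a := pb Finset.univ (fun j => f (c j) ^ 4) (L ^ 4) (H ^ 4) (by positivity)
    (pow_le_one₀ hL0 hL1) (one_le_pow₀ hH) n (by simp) fun j _ =>
      ⟨pow_le_pow_left₀ hL0 (h1 j).1 4, pow_le_pow_left₀ (hL0.trans (h1 j).1) (h1 j).2 4⟩
  have b : ∀ i : Fin n, (L ^ 2) ^ n ≤ ∏ j ∈ Finset.Ioi i, f (c i - c j) ^ 2 ∧
      ∏ j ∈ Finset.Ioi i, f (c i - c j) ^ 2 ≤ (H ^ 2) ^ n := by
    intro i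
    refine pb (Finset.Ioi i) (fun j => f (c i - c j) ^ 2) (L ^ 2) (H ^ 2) (by positivity)
      (pow_le_one₀ hL0 hL1) (one_le_pow₀ hH) n ?_ fun j hj => ?_
    · calc (Finset.Ioi i).card ≤ (Finset.univ : Finset (Fin n)).card :=
          Finset.card_le_card (Finset.subset_univ _)
        _ = n := by simp
    · have hij : i ≠ j := (Finset.mem_Ioi.1 hj).ne
      have h3 := h2 i j hij
      exact ⟨pow_le_pow_left₀ hL0 h3.1 2, pow_le_pow_left₀ (hL0.trans h3.1) h3.2 2⟩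
  have b2 := pb Finset.univ (fun i : Fin n => ∏ j ∈ Finset.Ioi i, f (c i - c j) ^ 2)
    ((L ^ 2) ^ n) ((H ^ 2) ^ n) (by positivity) (pow_le_one₀ (by positivity)
      (pow_le_one₀ hL0 hL1)) (one_le_pow₀ (one_le_pow₀ hH)) n (by simp) fun i _ => b i
  have e : ∀ x : ℝ, x ^ (4 * n + 2 * (n * n)) = (x ^ 4) ^ n * ((x ^ 2) ^ n) ^ n := by
    intro x
    ring
  rw [e, e]
  have hA : 0 ≤ ∏ j, f (c j) ^ 4 := le_trans (by positivity) a.1
  have hB : 0 ≤ ∏ i, ∏ j ∈ Finset.Ioi i, f (c i - c j) ^ 2 := le_trans (by positivity) b2.1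
  exact ⟨mul_le_mul a.1 b2.1 (by positivity) hA, mul_le_mul a.2 b2.2 hB (by positivity)⟩

end

end Pool.Agent.Y514.SX
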